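import Pool.Agent.N522.ES.Main

/-!
# Effective Shafarevich for cyclic covers of curves of genus one
-/

open Pool.Agent.N522.ES

/-- There is an explicit effective constant `c(K, S, g)` with `h_F(X) ≤ c(K, S, g)` for all curves
`X` over `K` of genus `g` with good reduction outside `S` that have a finite étale morphism over `K`
to a curve of genus `≥ 2` which is a geometrically cyclic cover of prime degree of a curve of genus
at most one; in particular for all geometrically cyclic covers of prime degree of curves of genus at
most one, of genus `≥ 2`. -/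
theorem Pool.Agent.Results.MP_f89135_nt.CyclicCoversGenusOne.result
    (T : Theory) (F : Elliptic T) (b0 : ∀ K : T.Fld, T.Pl K → ℕ → ℕ) (A : ℝ)
    (hF : EllipticFacts T F) (hC : CoverFacts T b0) (hA : Javanpykar T A)
    (K : T.Fld) (S : T.Pl K) (g : ℕ) :
    (∀ X : T.Curve K, T.genus X = g → T.Good X S → InClass T X →
      T.hF X ≤ A * g * (bound T F b0 K S g : ℝ) ^ 5) ∧
    (∀ X : T.Curve K, T.genus X = g → 2 ≤ g → T.Good X S → CyclicOverLowGenus T X →
      T.hF X ≤ A * g * (bound T F b0 K S g : ℝ) ^ 5) := by
  have h1 : ∀ X : T.Curve K, T.genus X = g → T.Good X S → InClass T X →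
      T.hF X ≤ A * g * (bound T F b0 K S g : ℝ) ^ 5 := by
    rintro X rfl hX hc
    exact bound_height hF hC hA S X hc hX
  refine ⟨h1, fun X hg h2 hX hc => h1 X hg hX (inClass_of_cyclic hC X (by omega) hc)⟩
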