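import Mathlib
import Pool.Agent.N54.ML.Five
import Pool.Agent.N141.TS.Frey

/-!
# Curves of genus one over all number fields with bad reduction in `T`: a bound `κ log p + C`, `p` a residue characteristic
# of `T`, along almost all sequences of invariants with real parameters

For `g = 1` the question asks for an effective bound `h_F(X) ≤ c(K, T)` for the curves `X` of genus one over `K` with good
reduction outside `T`; here `h_F(X)` is the stable Faltings height of the Jacobian `E` of `X`, which has good reduction outside `T`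
as well. Such bounds are known, but they grow exponentially with the norms of the places in `T` and depend on `K`.

Let `J = A / D` be a rational function over `ℚ` in `r` variables whose reductions modulo the primes have many poles in the mean
(`MeanPoles`), for example the `j`-invariant `6912 t₁³ / (4 t₁³ + 27 t₂²)` of the universal family `y² = x³ + t₁ x + t₂`. Let
`g_i(n)` be any real sequences with `g_i(n + 1) - g_i(n) ≥ n ^ (ρ - 1)` for large `n`, for instance `n`, `n ²`, `√n`, `n log n`, the `n`-th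
prime, and let `c_i(n)` be any real sequences. For almost all real vectors `ξ` the following holds if the integers
`z_i(n) = ⌊ξ_i g_i(n) + c_i(n)⌋` grow at most polynomially (that is, if `g_i` and `c_i` do). For all `J` and every `ε > 0` there is a
constant `κ` such that for all but `ε N` of the integers `n` in `(N, 2 N]`, `N` large, and for all but the proportion `ε` of the primes
`n` in `(N, 2 N]`:

for ALL number fields `K`, ALL sets `T` of finite places of `K` and ALL curves `X` of genus one over `K` with good reduction outside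
`T` whose Jacobian has the invariant `J (z(n))`, all places of `K` above some prime number `p` are in `T`, and

`h_F(X) ≤ κ log p + C`,

where `C` is an absolute constant. So `c(K, T, 1) = κ log P + C` is admissible for these curves, where `P` is the largest residue
characteristic of `T`: it does not depend on `K` and on the other places of `T`. The same is true for almost all members of all
families of twice continuously differentiable functions whose derivatives are separated (`Spread`). There is one null set of vectors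
`ξ` for all `J` and `ε`.

Definitions. A curve `X` of genus one enters only through its Jacobian, an elliptic curve `E` over `K` given by a Weierstrass equation.
`12 [K : ℚ] h_F(E)` is the sum of `log max(|j|_v, 1)` over the finite places `v` of `K`, the stable discriminant of `E`, and of the
archimedean terms `- log (|Δ(τ)| (Im τ) ^ 6)`, up to an absolute multiple of `[K : ℚ]` which depends on the normalisation.

Proof. For almost all `ξ` the integer vectors are jointly equidistributed modulo all `q ≤ N ^ δ` with a power saving, over the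
integers and over the primes (`Pool.Agent.N54.ME`, after helper668's metric theorem). By Turan's sieve all but the proportion `ε` of
the `n` have a prime `p > N ^ (τ δ)` dividing `D` and not `A` (helper141, `Pool.Agent.N141.TS`). All elliptic curves of invariant `j`
over number fields have bad reduction at all places above `p`, while the height of `j` is `O(log N)`, hence `O(log p)`.
-/

set_option autoImplicit false
set_option linter.unusedSectionVars false

namespace Pool.Agent.Results.MP_f89135_nt.MetricGenusOne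

open NumberField IsDedekindDomain Filter MeasureTheory

/-- the modular invariant `j(τ) = E₄(τ) ^ 3 / Δ(τ) = 1 / q + 744 + ⋯` -/
noncomputable def jInv (τ : UpperHalfPlane) : ℂ :=
  ModularForm.E₄ τ ^ 3 / ModularForm.discriminant τ

/-- the archimedean term `- log (|Δ(τ)| (Im τ) ^ 6)` of the Faltings height -/
noncomputable def arch (τ : UpperHalfPlane) : ℝ :=
  -Real.log (‖ModularForm.discriminant τ‖ * τ.im ^ 6)

/-- the points `τ w` have modular invariant `j` -/
def IsPeriod {K : Type} [Field K] [NumberField K] (j : K)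
    (τ : InfinitePlace K → UpperHalfPlane) : Prop := ∀ w, jInv (τ w) = w.embedding j

/-- the stable Faltings height of an elliptic curve over `K` of invariant `j`, where the points `τ w` have invariant `j` (up to an
absolute constant which depends on the normalisation of the metric only) -/
noncomputable def stableHeight {K : Type} [Field K] [NumberField K] (j : K)
    (τ : InfinitePlace K → UpperHalfPlane) : ℝ :=
  (∑ᶠ v : HeightOneSpectrum (𝓞 K), Real.log (max (FinitePlace.mk v j) 1) +
    ∑ w : InfinitePlace K, (w.mult : ℝ) * arch (τ w)) / (12 * Module.finrank ℚ K)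

/-- good reduction at `v`: some Weierstrass equation over `K` of the curve is integral at `v` and
has a discriminant which is a unit at `v` -/
def GoodAt {K : Type} [Field K] [NumberField K] (v : HeightOneSpectrum (𝓞 K))
    (E : WeierstrassCurve K) : Prop :=
  ∃ C : WeierstrassCurve.VariableChange K,
    v.valuation K (C • E).a₁ ≤ 1 ∧ v.valuation K (C • E).a₂ ≤ 1 ∧ v.valuation K (C • E).a₃ ≤ 1 ∧
    v.valuation K (C • E).a₄ ≤ 1 ∧ v.valuation K (C • E).a₆ ≤ 1 ∧ v.valuation K (C • E).Δ = 1

/-- The bound, with parameters `κ` and `C`, for all curves of genus one over `K` with Jacobian of invariant `j`: if the Jacobian `E`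
has good reduction outside the set `T` of places, then all places above some prime number `p` are in `T` (there is at least one
place above `p`), and `h_F(E) ≤ κ log p + C`. -/
def Bound (κ C : ℝ) {K : Type} [Field K] [NumberField K] (j : K) : Prop :=
  ∀ (E : WeierstrassCurve K) (τ : InfinitePlace K → UpperHalfPlane) (T : Set (HeightOneSpectrum (𝓞 K))),
    E.Δ ≠ 0 → E.c₄ ^ 3 / E.Δ = j → IsPeriod j τ → (∀ v, v ∉ T → GoodAt v E) →
    ∃ p : ℕ, p.Prime ∧ (∀ v : HeightOneSpectrum (𝓞 K), (p : 𝓞 K) ∈ v.asIdeal → v ∈ T) ∧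
      (∃ v ∈ T, (p : 𝓞 K) ∈ v.asIdeal) ∧ stableHeight j τ ≤ κ * Real.log p + C

open MvPolynomial

/-- the sum over the primes `y < p ≤ x` of the proportion of the vectors modulo `p` that are zeros of
`D` but not of `A` is at least `δ (log log x - log log y) - C` -/
def MeanPoles {r : ℕ} (A D : MvPolynomial (Fin r) ℤ) : Prop :=
  ∃ δ C : ℝ, 0 < δ ∧ ∀ y x : ℕ, 3 ≤ y → y ≤ x →
    δ * (Real.log (Real.log x) - Real.log (Real.log y)) - C ≤
      ∑ p ∈ (Finset.Ioc y x).filter Nat.Prime,
        ({ρ : Fin r → ZMod p | aeval ρ D = 0 ∧ aeval ρ A ≠ 0}.ncard : ℝ) / (p : ℝ) ^ r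

/-- The derivatives of the consecutive functions `F n` are separated on `[u, v]` and their second derivatives increase. -/
def Spread (ρ u v : ℝ) (F : ℕ → ℝ → ℝ) : Prop :=
  (∀ n, ContDiff ℝ 2 (F n)) ∧ ∃ n₀ : ℕ, ∀ n, n₀ ≤ n → ∀ x ∈ Set.Icc u v,
    (n : ℝ) ^ (ρ - 1) ≤ deriv (F (n + 1)) x - deriv (F n) x ∧
      deriv (deriv (F n)) x ≤ deriv (deriv (F (n + 1))) x

/-- `v` is not a pole of `A / D`, and the bound holds at `(A / D) (v)` over all number fields -/
def Holds (κ C : ℝ) {r : ℕ} (A D : MvPolynomial (Fin r) ℤ) (v : Fin r → ℤ) : Prop :=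
  eval v D ≠ 0 ∧ ∀ (K : Type) [Field K] [NumberField K],
    Bound κ C (((eval v A : ℤ) : K) / ((eval v D : ℤ) : K))

/-- If the integer vectors `z n` grow at most polynomially, then for all `A`, `D` with many poles in the mean and all `ε > 0` there
are `κ > 0` and `N₀` such that for all `N ≥ N₀` the bound holds at `(A / D) (z n)` for all but `ε N` of the integers `n` in
`(N, 2 N]` and for all but the proportion `ε` of the primes `n` in `(N, 2 N]`. -/
def AlmostAll (C : ℝ) {r : ℕ} (z : ℕ → Fin r → ℤ) : Prop :=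
  (∃ (C₁ : ℝ) (m : ℕ), ∀ᶠ n : ℕ in atTop, ∀ i, |(z n i : ℝ)| ≤ C₁ * (n : ℝ) ^ m) →
    ∀ A D : MvPolynomial (Fin r) ℤ, D ≠ 0 → MeanPoles A D →
      ∀ ε : ℝ, 0 < ε → ∃ (κ : ℝ) (N₀ : ℕ), 0 < κ ∧
        ∀ N : ℕ, N₀ ≤ N →
          ({n : ℕ | n ∈ Finset.Ioc N (2 * N) ∧ ¬ Holds κ C A D (z n)}.ncard : ℝ) ≤ ε * N ∧
          ({n : ℕ | n ∈ (Finset.Ioc N (2 * N)).filter Nat.Prime ∧ ¬ Holds κ C A D (z n)}.ncard : ℝ) ≤
            ε * ((Finset.Ioc N (2 * N)).filter Nat.Prime).card

section Aux

open Pool.Agent.Y733.UD Pool.Agent.Y733.LS Pool.Agent.W223.AK Pool.Agent.H691R3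
  Pool.Agent.Y733.FF Pool.Agent.N141.TS Height

/-- the bound from a large pole -/
theorem bound_of : ∃ C : ℝ, 0 < C ∧ ∀ (σ : ℝ), 0 ≤ σ → ∀ x y : ℤ, Big5 σ x y →
    ∀ (K : Type) [Field K] [NumberField K], Bound (σ / 12) C ((x : K) / y) := by
  obtain ⟨c, hc0, hc⟩ := arch_le
  refine ⟨(c + 1) / 12, by positivity, fun σ hσ x y hb K _ _ => ?_⟩
  intro E τ T hE hj hτ hg
  obtain ⟨hy0, p, hp, -, hpy, hpx, H, hxH, hyH, hle⟩ := hb
  have hx0 : x ≠ 0 := by
    rintro rfl
    exact hpx (dvd_zero _)
  have hτ' : Pool.Agent.TH876.FH.IsPeriod ((x : K) / y) τ := hτ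
  have h2 := hc K _ τ hτ'
  have h4 : ht ((x : K) / y) =
      ∑ w : InfinitePlace K, (w.mult : ℝ) * Real.log (max (w ((x : K) / y)) 1) +
      ∑ᶠ v : HeightOneSpectrum (𝓞 K), Real.log (max (FinitePlace.mk v ((x : K) / y)) 1) := by
    rw [← Pool.Agent.TH876.FH.Hj_height, logHeight_eq, ht_eq_Sa]
  have h6 : ht ((x : K) / y) ≤ Module.finrank ℚ K * (σ * Real.log p) := by
    have h7 : logHeight₁ ((x : K) / y) = ht ((x : K) / y) := by
      rw [logHeight_eq, ht_eq_Sa]
    rw [← h7]
    exact (ht_le K hx0 hy0 hxH hyH).trans (mul_le_mul_of_nonneg_left hle (Nat.cast_nonneg _))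
  have hbad : ∀ v : HeightOneSpectrum (𝓞 K), (p : 𝓞 K) ∈ v.asIdeal → v ∈ T := by
    intro v hv
    by_contra hcon
    have hg' : Pool.Agent.TH876.FH.GoodAt v E := hg v hcon
    have h1 := good_int v E hE hg'
    rw [hj, fv_le_one_iff, map_div₀, val_int hp hv hpx] at h1
    have h2 := val_lt hv hpy
    have h3 : v.valuation K (y : K) ≠ 0 := (v.valuation K).ne_zero_iff.2 (by exact_mod_cast hy0)
    have h4 : (1 : WithZero (Multiplicative ℤ)) ≤ v.valuation K (y : K) := by
      rw [div_le_iff₀ (zero_lt_iff.2 h3), one_mul] at h1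
      exact h1
    exact absurd h2 (not_lt.2 h4)
  obtain ⟨v, hv⟩ := exists_above K hp
  refine ⟨p, hp, hbad, ⟨v, hbad v hv, hv⟩, ?_⟩
  have hn : (0 : ℝ) < Module.finrank ℚ K := by exact_mod_cast Module.finrank_pos
  unfold stableHeight
  have e : ∑ w : InfinitePlace K, (w.mult : ℝ) * arch (τ w) =
      ∑ w : InfinitePlace K, (w.mult : ℝ) * Pool.Agent.TH876.FH.arch (τ w) := rfl
  rw [e, div_le_iff₀ (by positivity)]
  have e2 : (σ / 12 * Real.log p + (c + 1) / 12) * (12 * (Module.finrank ℚ K : ℝ)) =
      Module.finrank ℚ K * (σ * Real.log p) + c * Module.finrank ℚ K + Module.finrank ℚ K := by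
    ring
  rw [e2]
  linarith

theorem core : ∃ C : ℝ, 0 < C ∧ ∀ {r : ℕ} {κ₁ : ℝ}, 0 < κ₁ → ∀ {z : ℕ → Fin r → ℤ},
    Pool.Agent.N54.ME.WS z κ₁ → AlmostAll C z := by
  obtain ⟨C, hC, hb⟩ := bound_of
  refine ⟨C, hC, ?_⟩
  intro r κ₁ hκ₁ z hz hg A D hD hM ε hε
  obtain ⟨σ, hσ, N₀, hN₀⟩ := Pool.Agent.N54.ML.thinFive hD hM hκ₁ hz hg ε hε
  have key : ∀ v : Fin r → ℤ, Pool.Agent.N141.TS.Big5 σ (eval v A) (eval v D) →
      Holds ((σ + 1) / 12) C A D v := by
    intro v hv
    refine ⟨hv.1, fun K _ _ E τ T hE hj hτ hg => ?_⟩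
    obtain ⟨p, hp, h1, h2, h3⟩ := hb σ hσ _ _ hv K E τ T hE hj hτ hg
    refine ⟨p, hp, h1, h2, h3.trans ?_⟩
    have h4 : 0 ≤ Real.log p := Real.log_natCast_nonneg _
    nlinarith
  refine ⟨(σ + 1) / 12, N₀, by positivity, fun N hN => ?_⟩
  obtain ⟨k1, k2⟩ := hN₀ N hN
  rw [Nat.card_Ioc, show 2 * N - N = N by omega] at k1
  exact ⟨(Pool.Agent.N141.TS.ncard_mono fun n _ hn hb => hn (key _ hb)).trans k1,
    (Pool.Agent.N141.TS.ncard_mono fun n _ hn hb => hn (key _ hb)).trans k2⟩

end Aux

/-- **Theorem.** There is an absolute constant `C` such that, for all `r ≥ 1` and `0 < ρ ≤ 1`: (1) for all families of functions with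
separated derivatives, `AlmostAll C` holds for the integer parts of `F_i(n) (ξ_i)` for almost all `ξ`; (2) for all real sequences
`g_i` with `g_i(n + 1) - g_i(n) ≥ n ^ (ρ - 1)` for large `n` and all real sequences `c_i`, `AlmostAll C` holds for the integer parts of
`ξ_i g_i(n) + c_i(n)` for almost all `ξ`. The invariant `6912 t₁³ / (4 t₁³ + 27 t₂²)` of the universal family
`y² = x³ + t₁ x + t₂` has many poles in the mean. -/
theorem result :
    (∃ C : ℝ, 0 < C ∧ ∀ (r : ℕ) (ρ : ℝ), 0 < r → 0 < ρ → ρ ≤ 1 →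
      (∀ (u v : Fin r → ℝ) (F : Fin r → ℕ → ℝ → ℝ), (∀ i, Spread ρ (u i) (v i) (F i)) →
        ∀ᵐ ξ : Fin r → ℝ, (∀ i, ξ i ∈ Set.Ioc (u i) (v i)) → AlmostAll C (fun n i => ⌊F i n (ξ i)⌋)) ∧
      (∀ g c : Fin r → ℕ → ℝ, (∀ i, ∀ᶠ n : ℕ in atTop, (n : ℝ) ^ (ρ - 1) ≤ g i (n + 1) - g i n) →
        ∀ᵐ ξ : Fin r → ℝ, AlmostAll C (fun n i => ⌊ξ i * g i n + c i n⌋))) ∧
    MeanPoles (C 6912 * X 0 ^ 3 : MvPolynomial (Fin 2) ℤ) (C 4 * X 0 ^ 3 + C 27 * X 1 ^ 2) := by
  refine ⟨?_, Pool.Agent.N141.TS.mean_wei⟩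
  obtain ⟨C, hC, hcore⟩ := core
  refine ⟨C, hC, fun r ρ hr hρ hρ1 => ?_⟩
  have : Nonempty (Fin r) := ⟨⟨0, hr⟩⟩
  obtain ⟨h1, h2, _⟩ := Pool.Agent.N54.ME.three (ι := Fin r) hρ hρ1 (AlmostAll C)
    fun z hz => hcore (Pool.Agent.N54.ME.kap_pos hρ (Fintype.card (Fin r))) hz
  exact ⟨h1, h2⟩

end Pool.Agent.Results.MP_f89135_nt.MetricGenusOne
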